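import Pool.Agent.TH399.CC.Main

set_option autoImplicit false
set_option linter.unusedSectionVars false

/-!
Circuit covers of weightings in a box given by spanning two-edge-connected subgraphs.
-/

namespace Pool.Agent.L7h37.GB

open Finset
open Pool.Agent.Helper879.ECD (F2 IsFlow f2_add_self f2_cases cn)
open Pool.Agent.H126R2.CDC (MGraph isFl_iff)
open Pool.Agent.H126R2.NC (TC InIntCone cover_minus)
open Pool.Agent.TH399.CC (intCone_add intCone_sum block)

variable {V E : Type} [Fintype V] [DecidableEq V] [Fintype E] [DecidableEq E]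

/-- an edge outside a spanning two-edge-connected subgraph is in no two-cut -/
lemma tc_eq (a b : E → V) (H : Finset E) (hH : ∀ B : Finset V, cn a b univ B = 0 ∨ 2 ≤ cn a b H B)
    {e f : E} (he : e ∉ H) (h : TC a b e f) : e = f := by
  classical
  by_contra hne
  obtain ⟨z, hz⟩ := h
  have hcr : ∀ g : E, (¬ (a g ∈ univ.filter (fun w => z w = 1) ↔
      b g ∈ univ.filter (fun w => z w = 1))) ↔ (g = e ∨ g = f) := by
    intro g
    have h1 := hz g
    simp only [Finset.mem_filter, Finset.mem_univ, true_and]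
    by_cases hge : g = e
    · have hgf : g ≠ f := fun h => hne (hge.symm.trans h)
      rw [if_pos hge, if_neg hgf, add_zero] at h1
      rcases f2_cases (z (a g)) with h2 | h2 <;> rcases f2_cases (z (b g)) with h3 | h3 <;>
        rw [h2, h3] at h1 ⊢ <;> simp_all
    · by_cases hgf : g = f
      · rw [if_neg hge, if_pos hgf, zero_add] at h1
        rcases f2_cases (z (a g)) with h2 | h2 <;> rcases f2_cases (z (b g)) with h3 | h3 <;>
          rw [h2, h3] at h1 ⊢ <;> simp_all
      · rw [if_neg hge, if_neg hgf, add_zero] at h1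
        rcases f2_cases (z (a g)) with h2 | h2 <;> rcases f2_cases (z (b g)) with h3 | h3 <;>
          rw [h2, h3] at h1 ⊢ <;> simp_all
  rcases hH (univ.filter (fun w => z w = 1)) with h1 | h1
  · unfold cn at h1
    rw [Finset.card_eq_zero] at h1
    have h2 : e ∈ (∅ : Finset E) := by
      rw [← h1, Finset.mem_filter]
      exact ⟨Finset.mem_univ _, (hcr e).2 (Or.inl rfl)⟩
    simp at h2
  · unfold cn at h1
    have h2 : (H.filter (fun g => ¬ (a g ∈ univ.filter (fun w => z w = 1) ↔
        b g ∈ univ.filter (fun w => z w = 1)))) ⊆ {f} := by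
      intro g hg
      rw [Finset.mem_filter] at hg
      rw [Finset.mem_singleton]
      rcases (hcr g).1 hg.2 with h3 | h3
      · exact absurd (h3 ▸ hg.1) he
      · exact h3
    have h3 := Finset.card_le_card h2
    rw [Finset.card_singleton] at h3
    omega

lemma cn_mono (a b : E → V) {M M' : Finset E} (h : M ⊆ M') (B : Finset V) :
    cn a b M B ≤ cn a b M' B := by
  unfold cn
  exact Finset.card_le_card (Finset.filter_subset_filter _ h)

/-- weights `4` on `H` and `0` or `8` elsewhere -/
lemma round8 (G : MGraph V E) (v : E × Bool → V)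
    (hv : ∀ e, G.ends e = s(v (e, false), v (e, true))) (H : Finset E)
    (hH : ∀ B : Finset V, cn (fun e => v (e, false)) (fun e => v (e, true)) univ B = 0 ∨
      2 ≤ cn (fun e => v (e, false)) (fun e => v (e, true)) H B) (Y : Finset E) :
    InIntCone G (fun e => if e ∈ H then 4 else if e ∈ Y then 8 else 0) := by
  classical
  obtain ⟨S, hS1, hS2⟩ := block G v hv (univ \ H) (univ.filter (fun e => e ∉ H ∧ e ∈ Y)) (by
      intro e he f hef
      rw [Finset.mem_sdiff] at he
      rw [← tc_eq _ _ H hH he.2 hef, Finset.mem_sdiff]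
      exact he) (by
      intro e he f hef
      rw [Finset.mem_filter] at he
      rw [← tc_eq _ _ H hH he.2.1 hef, Finset.mem_filter]
      exact he) (by
      intro X' hX' _ B hB
      have h1 : H ⊆ univ \ X' := by
        intro e he
        rw [Finset.mem_sdiff]
        refine ⟨Finset.mem_univ _, fun h => ?_⟩
        exact (Finset.mem_sdiff.1 (hX' h)).2 he
      have h2 := cn_mono (fun e => v (e, false)) (fun e => v (e, true)) h1 B
      have h3 := cn_mono (fun e => v (e, false)) (fun e => v (e, true))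
        (Finset.subset_univ (univ \ X')) B
      rcases hH B with h4 | h4 <;> omega)
  refine ⟨S, hS1, fun e => ?_⟩
  rw [hS2 e]
  simp only [Finset.mem_sdiff, Finset.mem_filter, Finset.mem_univ, true_and]
  by_cases h : e ∈ H <;> simp [h]

/-- weights `2` on `H` and `0` or `2` elsewhere -/
lemma round2 (G : MGraph V E) (v : E × Bool → V)
    (hv : ∀ e, G.ends e = s(v (e, false), v (e, true))) (H : Finset E)
    (hH : ∀ B : Finset V, cn (fun e => v (e, false)) (fun e => v (e, true)) univ B = 0 ∨
      2 ≤ cn (fun e => v (e, false)) (fun e => v (e, true)) H B) (Y : Finset E) :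
    InIntCone G (fun e => if e ∈ H then 2 else if e ∈ Y then 2 else 0) := by
  classical
  obtain ⟨S, hS1, hS2⟩ := cover_minus G v hv (univ.filter (fun e => e ∉ H ∧ e ∉ Y)) (by
      intro B hB
      have h1 : H ⊆ univ \ univ.filter (fun e => e ∉ H ∧ e ∉ Y) := by
        intro e he
        rw [Finset.mem_sdiff, Finset.mem_filter]
        exact ⟨Finset.mem_univ _, fun h => h.2.1 he⟩
      have h2 := cn_mono (fun e => v (e, false)) (fun e => v (e, true)) h1 B
      have h3 := cn_mono (fun e => v (e, false)) (fun e => v (e, true))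
        (Finset.subset_univ (univ \ univ.filter (fun e => e ∉ H ∧ e ∉ Y))) B
      rcases hH B with h4 | h4 <;> omega)
  refine ⟨S, hS1, fun e => ?_⟩
  rw [hS2 e]
  simp only [Finset.mem_filter, Finset.mem_univ, true_and]
  by_cases h : e ∈ H
  · simp [h]
  · by_cases h2 : e ∈ Y <;> simp [h, h2]

/-- the main construction, for even weights `2 q` -/
theorem box_even (G : MGraph V E) (v : E × Bool → V)
    (hv : ∀ e, G.ends e = s(v (e, false), v (e, true))) {ι : Type} [Fintype ι] [DecidableEq ι]
    (H : ι → Finset E)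
    (hH : ∀ i, ∀ B : Finset V, cn (fun e => v (e, false)) (fun e => v (e, true)) univ B = 0 ∨
      2 ≤ cn (fun e => v (e, false)) (fun e => v (e, true)) (H i) B)
    (N : ℕ) (hNι : Fintype.card ι = N) (k : ℕ) (q : E → ℕ) (n : E → ℕ)
    (hn : ∀ e, n e = (univ.filter (fun i => e ∈ H i)).card)
    (hlo : ∀ e, k * n e ≤ q e) (hhi : ∀ e, q e ≤ k * n e + 2 * (k - 2) * (N - n e)) :
    InIntCone G (fun e => 2 * q e) := by
  classical
  have hnN : ∀ e, n e ≤ N := by
    intro e
    rw [hn e]
    calc _ ≤ (univ : Finset ι).card := Finset.card_le_card (Finset.filter_subset _ _)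
      _ = N := by rw [Finset.card_univ, hNι]
  obtain ⟨r, b, hk, hrb, htop⟩ : ∃ r b : ℕ, k = 2 * r + b ∧ (r = 0 ∨ 3 ≤ b) ∧
      2 * (k - 2) ≤ 4 * r + b := by
    by_cases h : k < 5
    · exact ⟨0, k, by omega, Or.inl rfl, by omega⟩
    · exact ⟨(k - 3) / 2, k - 2 * ((k - 3) / 2), by omega, Or.inr (by omega), by omega⟩
  -- the numbers of additional units
  have hy : ∀ e, ∃ U W : ℕ, U ≤ r * (N - n e) ∧ W ≤ b * (N - n e) ∧
      q e = k * n e + 4 * U + W := by
    intro e
    obtain ⟨y, hy⟩ : ∃ y : ℕ, q e = k * n e + y := ⟨_, (Nat.add_sub_of_le (hlo e)).symm⟩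
    have h1 := hhi e
    have h2 : y ≤ (4 * r + b) * (N - n e) := by
      have h3 : 2 * (k - 2) * (N - n e) ≤ (4 * r + b) * (N - n e) := Nat.mul_le_mul_right _ htop
      omega
    have h3 : (4 * r + b) * (N - n e) = 4 * (r * (N - n e)) + b * (N - n e) := by ring
    rw [h3] at h2
    rcases hrb with h4 | h4
    · refine ⟨0, y, Nat.zero_le _, ?_, by omega⟩
      rw [h4] at h2
      omega
    · by_cases h7 : y / 4 ≤ r * (N - n e)
      · refine ⟨y / 4, y % 4, h7, ?_, by omega⟩
        rcases Nat.eq_zero_or_pos (N - n e) with h8 | h8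
        · rw [h8] at h2 ⊢
          omega
        · have h9 : 3 * 1 ≤ b * (N - n e) := Nat.mul_le_mul h4 h8
          omega
      · exact ⟨r * (N - n e), y - 4 * (r * (N - n e)), le_refl _, by omega, by omega⟩
  choose U W hU hW hqe using hy
  have hout : ∀ e, (univ.filter (fun i : ι => e ∉ H i)).card = N - n e := by
    intro e
    have h1 := Finset.card_filter_add_card_filter_not (s := (univ : Finset ι))
      (fun i => e ∈ H i)
    rw [← hn e] at h1
    rw [Finset.card_univ, hNι] at h1
    omega
  have hJ : ∀ (m : ℕ) (T : E → ℕ), (∀ e, T e ≤ m * (N - n e)) → ∀ e,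
      ∃ J : Finset (ℕ × ι), J ⊆ (range m) ×ˢ (univ.filter (fun i : ι => e ∉ H i)) ∧
        J.card = T e := by
    intro m T hT e
    apply Finset.exists_subset_card_eq
    rw [Finset.card_product, Finset.card_range, hout e]
    exact hT e
  -- the sum over the rounds
  have hsum : ∀ (m k l : ℕ) (e : E) (J : Finset (ℕ × ι)),
      J ⊆ (range m) ×ˢ (univ.filter (fun i : ι => e ∉ H i)) →
      ∑ x ∈ (range m) ×ˢ (univ : Finset ι),
        (if e ∈ H x.2 then k else if x ∈ J then l else 0) = k * (m * n e) + l * J.card := by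
    intro m k l e J hJ
    have h1 : ∀ x ∈ (range m) ×ˢ (univ : Finset ι),
        (if e ∈ H x.2 then k else if x ∈ J then l else 0) =
          (if e ∈ H x.2 then k else 0) + (if x ∈ J then l else 0) := by
      intro x _
      by_cases h2 : e ∈ H x.2
      · have h3 : x ∉ J := by
          intro h3
          have h4 := hJ h3
          rw [Finset.mem_product, Finset.mem_filter] at h4
          exact h4.2.2 h2
        simp [h2, h3]
      · simp [h2]
    rw [Finset.sum_congr rfl h1, Finset.sum_add_distrib]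
    congr 1
    · rw [Finset.sum_product]
      have h2 : ∀ t ∈ range m, ∑ i : ι, (if e ∈ H i then k else 0) = n e * k := by
        intro t _
        rw [← Finset.sum_filter, Finset.sum_const, smul_eq_mul, ← hn e]
      rw [Finset.sum_congr rfl h2, Finset.sum_const, Finset.card_range, smul_eq_mul]
      ring
    · rw [← Finset.sum_filter, Finset.sum_const, smul_eq_mul, mul_comm]
      congr 2
      ext x
      rw [Finset.mem_filter]
      constructor
      · exact fun h => h.2
      · intro h
        refine ⟨?_, h⟩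
        have h4 := hJ h
        rw [Finset.mem_product] at h4 ⊢
        exact ⟨h4.1, Finset.mem_univ _⟩
  choose J1 hJ1 hJ1' using hJ r U hU
  choose J2 hJ2 hJ2' using hJ b W hW
  have hA := intCone_sum G ((range r) ×ˢ (univ : Finset ι))
    (fun x e => if e ∈ H x.2 then 4 else if x ∈ J1 e then 8 else 0) (by
      intro x _
      obtain ⟨S, hS1, hS2⟩ := round8 G v hv (H x.2) (hH x.2) (univ.filter (fun e => x ∈ J1 e))
      refine ⟨S, hS1, fun e => ?_⟩
      rw [hS2 e]
      simp)
  have hB := intCone_sum G ((range b) ×ˢ (univ : Finset ι))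
    (fun x e => if e ∈ H x.2 then 2 else if x ∈ J2 e then 2 else 0) (by
      intro x _
      obtain ⟨S, hS1, hS2⟩ := round2 G v hv (H x.2) (hH x.2) (univ.filter (fun e => x ∈ J2 e))
      refine ⟨S, hS1, fun e => ?_⟩
      rw [hS2 e]
      simp)
  refine intCone_add G hA hB ?_
  intro e
  show 2 * q e = _ + _
  rw [hsum r 4 8 e (J1 e) (hJ1 e), hsum b 2 2 e (J2 e) (hJ2 e), hJ1' e, hJ2' e, hqe e, hk]
  ring

lemma aux_mul (k d : ℕ) : 2 * (k * d) ≤ 2 * (k - 2) * d + 4 * d := by
  by_cases h9 : k < 2
  · interval_cases k <;> omega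
  · obtain ⟨j, rfl⟩ : ∃ j, k = j + 2 := ⟨k - 2, by omega⟩
    have : j + 2 - 2 = j := by omega
    rw [this]
    nlinarith

/-- the same for families in which every edge has the same multiplicity, up to enlarging -/
theorem box_uniform (G : MGraph V E) (v : E × Bool → V)
    (hv : ∀ e, G.ends e = s(v (e, false), v (e, true))) {ι : Type} [Fintype ι] [DecidableEq ι]
    (H : ι → Finset E)
    (hH : ∀ i, ∀ B : Finset V, cn (fun e => v (e, false)) (fun e => v (e, true)) univ B = 0 ∨
      2 ≤ cn (fun e => v (e, false)) (fun e => v (e, true)) (H i) B)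
    (N : ℕ) (hNι : Fintype.card ι = N) (n : ℕ) (hn0 : 0 < n) (hnN : n ≤ N)
    (hn : ∀ e, (univ.filter (fun i => e ∈ H i)).card ≤ n) (p : E → ℕ)
    (hr : ∀ e f, n * p e + 12 * n * N ≤ (2 * N - n) * p f) :
    InIntCone G (fun e => 2 * (p e / 2)) := by
  classical
  by_cases hE : IsEmpty E
  · exact ⟨0, by simp, fun e => (hE.false e).elim⟩
  rw [not_isEmpty_iff] at hE
  -- enlarge the subgraphs
  have hI : ∀ e, ∃ I : Finset ι, univ.filter (fun i => e ∈ H i) ⊆ I ∧ I.card = n := by
    intro e
    obtain ⟨I, h1, _, h2⟩ := Finset.exists_subsuperset_card_eq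
      (Finset.subset_univ (univ.filter (fun i => e ∈ H i))) (hn e)
      (by rw [Finset.card_univ, hNι]; exact hnN)
    exact ⟨I, h1, h2⟩
  choose I hI1 hI2 using hI
  let H' : ι → Finset E := fun i => univ.filter (fun e => i ∈ I e)
  have hHH : ∀ i, H i ⊆ H' i := by
    intro i e he
    rw [Finset.mem_filter]
    exact ⟨Finset.mem_univ _, hI1 e (Finset.mem_filter.2 ⟨Finset.mem_univ _, he⟩)⟩
  obtain ⟨e1, -, he1⟩ := Finset.exists_min_image (univ : Finset E) p (Finset.univ_nonempty)
  set μ := p e1 with hμ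
  set k := μ / (2 * n) with hk
  have hkμ : 2 * n * k + μ % (2 * n) = μ := Nat.div_add_mod μ (2 * n)
  have hmod : μ % (2 * n) < 2 * n := Nat.mod_lt _ (by omega)
  refine box_even G v hv H' (fun i B => ?_) N hNι k (fun e => p e / 2) (fun _ => n) (fun e => ?_)
    (fun e => ?_) (fun e => ?_)
  · rcases hH i B with h | h
    · exact Or.inl h
    · exact Or.inr (le_trans h (cn_mono _ _ (hHH i) B))
  · rw [← hI2 e]
    congr 1
    ext i
    simp [H']
  · have h1 := he1 e (Finset.mem_univ _)
    have h2 : 2 * (k * n) ≤ p e := by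
      have h3 : 2 * (k * n) = 2 * n * k := by ring
      omega
    show k * n ≤ p e / 2
    omega
  · -- the upper bound
    have h1 := hr e e1
    rw [← hμ] at h1
    obtain ⟨d, hd⟩ : ∃ d : ℕ, N = n + d := ⟨N - n, by omega⟩
    have h2 : N - n = d := by omega
    show p e / 2 ≤ k * n + 2 * (k - 2) * (N - n)
    rw [h2]
    have h3 : 2 * N - n = n + 2 * d := by omega
    rw [h3, hd] at h1
    -- `2 n k > μ - 2 n`
    have h4 : n * p e + 12 * n * (n + d) ≤ (n + 2 * d) * (2 * n * k + 2 * n) := by
      calc _ ≤ (n + 2 * d) * μ := h1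
        _ ≤ _ := Nat.mul_le_mul_left _ (by omega)
    have h5 : n * (p e + 12 * (n + d)) ≤ n * ((n + 2 * d) * (2 * k + 2)) := by
      calc _ = n * p e + 12 * n * (n + d) := by ring
        _ ≤ _ := h4
        _ = _ := by ring
    have h6 := Nat.le_of_mul_le_mul_left h5 hn0
    have h7 : p e + 10 * n + 8 * d ≤ 2 * (k * n) + 4 * (k * d) := by
      have h8 : (n + 2 * d) * (2 * k + 2) = 2 * (k * n) + 4 * (k * d) + 2 * n + 4 * d := by ring
      rw [h8] at h6
      omega
    have h8 := aux_mul k d
    omega

end Pool.Agent.L7h37.GB
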