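import Pool.Agent.L7h37.GB.Trees
import Pool.Agent.H416R3.GD.Goddyn

set_option autoImplicit false
set_option linter.unusedSectionVars false

/-!
Circuit covers of weightings in a box given by spanning connected even subgraphs.
-/

namespace Pool.Agent.L7h37.GB

open Finset
open Pool.Agent.Helper879.ECD (F2 IsFlow f2_add_self f2_cases cn sp inc fnl fnl_inc mem_sp)
open Pool.Agent.H126R2.CDC (MGraph isFl_iff packK)
open Pool.Agent.H126R2.NC (TC InIntCone cover_minus)
open Pool.Agent.TH399.CC (intCone_add intCone_sum isFlow_add isEven_of_isFlow exists_flow_on)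

variable {V E : Type} [Fintype V] [DecidableEq V] [Fintype E] [DecidableEq E]

/-- flows with prescribed values off a spanning connected subgraph -/
lemma flow_sp (a b : E → V) (H : Finset E)
    (hH : ∀ B : Finset V, cn a b univ B = 0 ∨ 1 ≤ cn a b H B) (F : Finset E) :
    ∃ Z : E → F2, IsFlow a b Z ∧ ∀ e, e ∉ H → Z e = if e ∈ F then 1 else 0 := by
  classical
  obtain ⟨Z, hZ1, hZ2⟩ := exists_flow_on a b (univ \ H) F (by
    intro c hc
    apply Finset.sum_eq_zero
    intro e _
    by_contra hne
    have h0 : ∀ g, (¬ (a g ∈ univ.filter (fun w => c w = 1) ↔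
        b g ∈ univ.filter (fun w => c w = 1))) → c (a g) + c (b g) ≠ 0 := by
      intro g hg h
      apply hg
      simp only [Finset.mem_filter, Finset.mem_univ, true_and]
      rcases f2_cases (c (a g)) with h2 | h2 <;> rcases f2_cases (c (b g)) with h3 | h3 <;>
        rw [h2, h3] at h ⊢ <;> simp_all
    rcases hH (univ.filter (fun w => c w = 1)) with h1 | h1
    · unfold cn at h1
      rw [Finset.card_eq_zero, Finset.filter_eq_empty_iff] at h1
      have h2 := not_not.1 (h1 (Finset.mem_univ e))
      simp only [Finset.mem_filter, Finset.mem_univ, true_and] at h2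
      apply hne
      rcases f2_cases (c (a e)) with h3 | h3 <;> rcases f2_cases (c (b e)) with h4 | h4 <;>
        rw [h3, h4] at h2 ⊢ <;> simp_all [f2_add_self]
    · unfold cn at h1
      obtain ⟨g, hg⟩ := Finset.card_pos.1 h1
      rw [Finset.mem_filter] at hg
      exact h0 g hg.2 (hc g (by simp [hg.1])))
  refine ⟨Z, hZ1, fun e he => hZ2 e ?_⟩
  rw [Finset.mem_sdiff]
  exact ⟨Finset.mem_univ _, he⟩

/-- the sum of the indicator functions of two even sets -/
lemma cone_of_flow (G : MGraph V E) (v : E × Bool → V)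
    (hv : ∀ e, G.ends e = s(v (e, false), v (e, true))) (x : E → F2)
    (hx : IsFlow (fun e => v (e, false)) (fun e => v (e, true)) x) :
    InIntCone G (fun e => if x e = 1 then 1 else 0) := by
  obtain ⟨S, hS1, hS2⟩ := G.decompose _ _ rfl (isEven_of_isFlow G v hv x hx)
  refine ⟨S, hS1, fun e => ?_⟩
  rw [hS2 e]
  simp

/-- weights `1` on a spanning connected even subgraph `H` and `0` or `2` elsewhere -/
lemma round1 (G : MGraph V E) (v : E × Bool → V)
    (hv : ∀ e, G.ends e = s(v (e, false), v (e, true))) (H : Finset E)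
    (hH : ∀ B : Finset V, cn (fun e => v (e, false)) (fun e => v (e, true)) univ B = 0 ∨
      1 ≤ cn (fun e => v (e, false)) (fun e => v (e, true)) H B)
    (hev : IsFlow (fun e => v (e, false)) (fun e => v (e, true)) (fun e => if e ∈ H then 1 else 0))
    (Y : Finset E) :
    InIntCone G (fun e => if e ∈ H then 1 else if e ∈ Y then 2 else 0) := by
  classical
  obtain ⟨Z, hZ1, hZ2⟩ := flow_sp _ _ H hH Y
  refine intCone_add G (cone_of_flow G v hv Z hZ1)
    (cone_of_flow G v hv _ (isFlow_add hZ1 hev)) ?_
  intro e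
  by_cases he : e ∈ H
  · rw [if_pos he, if_pos he]
    rcases f2_cases (Z e) with h | h <;> rw [h] <;> simp [f2_add_self]
  · rw [if_neg he, if_neg he, hZ2 e he]
    by_cases h2 : e ∈ Y <;> simp [h2]

/-- the sum of flows -/
lemma isFlow_sum {a b : E → V} {ι : Type} [DecidableEq ι] (s : Finset ι) (x : ι → E → F2)
    (hx : ∀ i ∈ s, IsFlow a b (x i)) : IsFlow a b (fun e => ∑ i ∈ s, x i e) := by
  induction s using Finset.induction_on with
  | empty => intro c; simp
  | insert i s hi ih =>
    have h1 := isFlow_add (hx i (Finset.mem_insert_self i s))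
      (ih (fun j hj => hx j (Finset.mem_insert_of_mem hj)))
    have h2 : (fun e => ∑ i ∈ insert i s, x i e) = fun e => x i e + ∑ i ∈ s, x i e := by
      funext e
      exact Finset.sum_insert hi
    rw [h2]
    exact h1

lemma natCast_f2 (n : ℕ) : ((n : ℕ) : F2) = if n % 2 = 1 then 1 else 0 := by
  rcases Nat.mod_two_eq_zero_or_one n with h | h
  · obtain ⟨m, rfl⟩ : ∃ m, n = m + m := ⟨n / 2, by omega⟩
    rw [if_neg (by omega)]
    push_cast
    exact f2_add_self _
  · obtain ⟨m, rfl⟩ : ∃ m, n = m + m + 1 := ⟨n / 2, by omega⟩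
    rw [if_pos (by omega)]
    push_cast
    rw [f2_add_self, zero_add]

/-- weights between `n` and `2 N - n + 1`, where `n` counts the spanning connected even subgraphs -/
theorem box_odd (G : MGraph V E) (v : E × Bool → V)
    (hv : ∀ e, G.ends e = s(v (e, false), v (e, true))) {ι : Type} [Fintype ι] [DecidableEq ι]
    (H : ι → Finset E)
    (hH : ∀ i, ∀ B : Finset V, cn (fun e => v (e, false)) (fun e => v (e, true)) univ B = 0 ∨
      1 ≤ cn (fun e => v (e, false)) (fun e => v (e, true)) (H i) B)
    (hev : ∀ i, IsFlow (fun e => v (e, false)) (fun e => v (e, true))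
      (fun e => if e ∈ H i then 1 else 0))
    (N : ℕ) (hNι : Fintype.card ι = N) (w : E → ℕ)
    (hw : IsFlow (fun e => v (e, false)) (fun e => v (e, true)) (fun e => (w e : F2)))
    (n : E → ℕ) (hn : ∀ e, n e = (univ.filter (fun i => e ∈ H i)).card)
    (hlo : ∀ e, n e ≤ w e) (hhi : ∀ e, w e + n e ≤ 2 * N + 1) :
    InIntCone G w := by
  classical
  -- the even subgraph of the edges with a wrong parity
  have hC : IsFlow (fun e => v (e, false)) (fun e => v (e, true)) (fun e => ((w e + n e : ℕ) : F2)) := by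
    have h1 := isFlow_add hw (isFlow_sum (univ : Finset ι)
      (fun i e => if e ∈ H i then (1 : F2) else 0) (fun i _ => hev i))
    have h2 : (fun e => ((w e + n e : ℕ) : F2)) =
        fun e => (w e : F2) + ∑ i : ι, (if e ∈ H i then (1 : F2) else 0) := by
      funext e
      rw [Nat.cast_add, hn e, ← Finset.sum_filter, Finset.sum_const, nsmul_eq_mul, mul_one]
    rw [h2]
    exact h1
  have hout : ∀ e, (univ.filter (fun i : ι => e ∉ H i)).card = N - n e := by
    intro e
    have h1 := Finset.card_filter_add_card_filter_not (s := (univ : Finset ι))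
      (fun i => e ∈ H i)
    rw [← hn e] at h1
    rw [Finset.card_univ, hNι] at h1
    omega
  have hJ : ∀ e, ∃ J : Finset ι, J ⊆ univ.filter (fun i : ι => e ∉ H i) ∧
      J.card = (w e - n e) / 2 := by
    intro e
    apply Finset.exists_subset_card_eq
    rw [hout e]
    have h1 := hlo e
    have h2 := hhi e
    omega
  choose J hJ1 hJ2 using hJ
  have hA := intCone_sum G (univ : Finset ι)
    (fun i e => if e ∈ H i then 1 else if i ∈ J e then 2 else 0) (by
      intro i _
      obtain ⟨S, hS1, hS2⟩ := round1 G v hv (H i) (hH i) (hev i) (univ.filter (fun e => i ∈ J e))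
      refine ⟨S, hS1, fun e => ?_⟩
      rw [hS2 e]
      simp)
  refine intCone_add G hA (cone_of_flow G v hv _ hC) ?_
  intro e
  have hsum : ∑ i : ι, (if e ∈ H i then 1 else if i ∈ J e then 2 else 0) =
      n e + 2 * ((w e - n e) / 2) := by
    have h1 : ∀ i ∈ (univ : Finset ι), (if e ∈ H i then 1 else if i ∈ J e then 2 else 0) =
        (if e ∈ H i then 1 else 0) + (if i ∈ J e then 2 else 0) := by
      intro i _
      by_cases h2 : e ∈ H i
      · have h3 : i ∉ J e := fun h3 => (Finset.mem_filter.1 (hJ1 e h3)).2 h2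
        simp [h2, h3]
      · simp [h2]
    rw [Finset.sum_congr rfl h1, Finset.sum_add_distrib, ← Finset.sum_filter, Finset.sum_const,
      smul_eq_mul, mul_one, ← hn e, ← Finset.sum_filter, Finset.sum_const, smul_eq_mul]
    have h4 : univ.filter (fun i => i ∈ J e) = J e := by ext i; simp
    rw [h4, hJ2 e, mul_comm]
  show w e = _ + _
  rw [hsum, natCast_f2]
  have h1 := hlo e
  rcases Nat.mod_two_eq_zero_or_one (w e + n e) with h2 | h2
  · rw [h2]
    simp only [if_false, zero_ne_one]
    omega
  · rw [h2]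
    simp only [if_true]
    omega

/-- weights between `j` and about `j (t - 1)` if all nonempty cuts have at least `2 t` edges -/
theorem cover_cuts_even (G : MGraph V E) (v : E × Bool → V)
    (hv : ∀ e, G.ends e = s(v (e, false), v (e, true))) (t : ℕ) (ht : 2 ≤ t)
    (h4 : ∀ X : Finset V, cn (fun e => v (e, false)) (fun e => v (e, true)) univ X = 0 ∨
      2 * t ≤ cn (fun e => v (e, false)) (fun e => v (e, true)) univ X) (w : E → ℕ)
    (hw : IsFlow (fun e => v (e, false)) (fun e => v (e, true)) (fun e => (w e : F2)))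
    (j : ℕ) (hlo : ∀ e, j ≤ w e) (hhi : ∀ e, w e + j ≤ 2 * (j * t / 2) + 1) :
    InIntCone G w := by
  classical
  obtain ⟨I, hd, hI⟩ := packt t _ _ h4
  have hsp : ∀ i, ∀ B : Finset V, cn (fun e => v (e, false)) (fun e => v (e, true)) univ B = 0 ∨
      1 ≤ cn (fun e => v (e, false)) (fun e => v (e, true)) (I i) B := by
    intro i B
    by_cases hB : cn (fun e => v (e, false)) (fun e => v (e, true)) univ B = 0
    · exact Or.inl hB
    · exact Or.inr (span_cut _ _ (I i) (hI i) B hB)
  -- an even set between `I i` and `I i ∪ I k`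
  have hev : ∀ i k, i ≠ k → ∃ H : Finset E, I i ⊆ H ∧ H ⊆ I i ∪ I k ∧
      IsFlow (fun e => v (e, false)) (fun e => v (e, true)) (fun e => if e ∈ H then 1 else 0) := by
    intro i k hik
    obtain ⟨Z, hZ1, hZ2⟩ := flow_sp _ _ (I k) (hsp k) (I i)
    refine ⟨univ.filter (fun e => Z e = 1), ?_, ?_, ?_⟩
    · intro e he
      rw [Finset.mem_filter]
      refine ⟨Finset.mem_univ _, ?_⟩
      rw [hZ2 e (Finset.disjoint_left.1 (hd i k hik) he), if_pos he]
    · intro e he
      rw [Finset.mem_filter] at he
      rw [Finset.mem_union]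
      by_contra hcon
      push Not at hcon
      have h1 := hZ2 e hcon.2
      rw [if_neg hcon.1, he.2] at h1
      exact absurd h1 (by decide)
    · have h1 : (fun e => if e ∈ univ.filter (fun e => Z e = 1) then (1 : F2) else 0) = Z := by
        funext e
        rcases f2_cases (Z e) with h | h <;> simp [h]
      rw [h1]
      exact hZ1
  have huniq : ∀ e l i, e ∈ I l → e ∈ I i → i = l := by
    intro e l i h1 h2
    by_contra h3
    exact Finset.disjoint_left.1 (hd i l h3) h2 h1
  -- the multiplicity of the cyclic pairs and of the disjoint pairs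
  obtain ⟨s, ε, hε, hj⟩ : ∃ s ε : ℕ, ε < 2 ∧ j = 2 * s + ε :=
    ⟨j / 2, j % 2, Nat.mod_lt _ (by norm_num), by omega⟩
  obtain ⟨m, δ, hδ, hm⟩ : ∃ m δ : ℕ, δ < 2 ∧ t = 2 * m + δ :=
    ⟨t / 2, t % 2, Nat.mod_lt _ (by norm_num), by omega⟩
  -- the disjoint pairs
  have hpair : ∀ i : Fin m, ∃ H : Finset E, I ⟨2 * i.1, by omega⟩ ⊆ H ∧
      H ⊆ I ⟨2 * i.1, by omega⟩ ∪ I ⟨2 * i.1 + 1, by omega⟩ ∧
      IsFlow (fun e => v (e, false)) (fun e => v (e, true))
        (fun e => if e ∈ H then 1 else 0) := by
    intro i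
    apply hev
    intro h
    have := congrArg Fin.val h
    simp at this
  choose H hH1 hH2 hH3 using hpair
  have hcard : ∀ e, (univ.filter (fun i : Fin m => e ∈ H i)).card ≤ 1 := by
    intro e
    rw [Finset.card_le_one]
    intro i hi i' hi'
    rw [Finset.mem_filter] at hi hi'
    have h1 := hH2 i hi.2
    have h2 := hH2 i' hi'.2
    rw [Finset.mem_union] at h1 h2
    have key : ∀ x y : Fin t, e ∈ I x → e ∈ I y → x.1 = y.1 := fun x y hx hy =>
      congrArg Fin.val (huniq e y x hy hx)
    apply Fin.ext
    rcases h1 with h1 | h1 <;> rcases h2 with h2 | h2 <;> have h3 := key _ _ h1 h2 <;>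
      simp only at h3 <;> omega
  -- the cyclic pairs
  have hcyc : ∃ K : Fin t → Finset E, (∀ i, I i ⊆ K i) ∧
      (∀ i, IsFlow (fun e => v (e, false)) (fun e => v (e, true))
        (fun e => if e ∈ K i then 1 else 0)) ∧
      ∀ e, (univ.filter (fun i : Fin t => e ∈ K i)).card ≤ 2 := by
    clear hcard hH1 hH2 hH3 H hm hhi
    obtain ⟨l, rfl⟩ : ∃ l, t = l + 2 := ⟨t - 2, by omega⟩
    have hne : ∀ i : Fin (l + 2), i ≠ i + 1 := by
      intro i h
      have h1 : (1 : Fin (l + 2)) = 0 := by
        have h2 : i + 1 = i + 0 := by rw [add_zero]; exact h.symm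
        exact add_left_cancel h2
      exact absurd h1 (by simp)
    choose K hK1 hK2 hK3 using fun i => hev i (i + 1) (hne i)
    refine ⟨K, hK1, hK3, ?_⟩
    intro e
    by_cases h : ∃ l, e ∈ I l
    · obtain ⟨l', hl⟩ := h
      have h1 : (univ.filter (fun i : Fin (l + 2) => e ∈ K i)) ⊆ {l', l' - 1} := by
        intro i hi
        rw [Finset.mem_filter] at hi
        have h2 := hK2 i hi.2
        rw [Finset.mem_union] at h2
        rw [Finset.mem_insert, Finset.mem_singleton]
        rcases h2 with h2 | h2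
        · exact Or.inl (huniq _ _ _ hl h2)
        · right
          rw [← huniq _ _ _ hl h2]
          exact (add_sub_cancel_right i 1).symm
      exact le_trans (Finset.card_le_card h1) Finset.card_le_two
    · have h1 : (univ.filter (fun i : Fin (l + 2) => e ∈ K i)) = ∅ := by
        rw [Finset.filter_eq_empty_iff]
        intro i _ hi
        have h2 := hK2 i hi
        rw [Finset.mem_union] at h2
        rcases h2 with h2 | h2
        · exact h ⟨_, h2⟩
        · exact h ⟨_, h2⟩
      rw [h1]; simp
  obtain ⟨K, hK1, hK3, hKcard⟩ := hcyc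
  have hn : ∀ e, (univ.filter (fun x : (Fin t × Fin s) ⊕ (Fin m × Fin ε) =>
      e ∈ Sum.elim (fun y => K y.1) (fun y => H y.1) x)).card ≤ j := by
    intro e
    have h1 : univ.filter (fun x : (Fin t × Fin s) ⊕ (Fin m × Fin ε) =>
        e ∈ Sum.elim (fun y => K y.1) (fun y => H y.1) x) =
        ((univ.filter (fun i => e ∈ K i)) ×ˢ (univ : Finset (Fin s))).disjSum
          ((univ.filter (fun i => e ∈ H i)) ×ˢ (univ : Finset (Fin ε))) := by
      ext x
      rcases x with x | x <;> simp
    rw [h1, Finset.card_disjSum, Finset.card_product, Finset.card_product, Finset.card_univ,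
      Finset.card_univ, Fintype.card_fin, Fintype.card_fin]
    have h2 := Nat.mul_le_mul_right s (hKcard e)
    have h3 := Nat.mul_le_mul_right ε (hcard e)
    omega
  have hN : 2 * (t * s + m * ε) = 2 * (j * t / 2) := by
    have h1 : j * t = 2 * (t * s + m * ε) + ε * δ := by
      rw [hj, hm]
      ring
    have h2 : ε * δ < 2 := by
      interval_cases ε <;> interval_cases δ <;> norm_num
    omega
  refine box_odd G v hv (Sum.elim (fun y : Fin t × Fin s => K y.1)
    (fun y : Fin m × Fin ε => H y.1)) ?_ ?_ (t * s + m * ε) (by simp) w hw _ (fun e => rfl) ?_ ?_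
  · rintro (x | x) B
    · rcases hsp x.1 B with h | h
      · exact Or.inl h
      · exact Or.inr (le_trans h (cn_mono _ _ (hK1 x.1) B))
    · rcases hsp ⟨2 * x.1.1, by omega⟩ B with h | h
      · exact Or.inl h
      · exact Or.inr (le_trans h (cn_mono _ _ (hH1 x.1) B))
  · rintro (x | x)
    · exact hK3 x.1
    · exact hH3 x.1
  · intro e
    exact le_trans (hn e) (hlo e)
  · intro e
    have h1 := hn e
    have h2 := hhi e
    have h3 := Nat.add_le_add_left h1 (w e)
    rw [hN]
    exact le_trans h3 h2

end Pool.Agent.L7h37.GB
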