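import Pool.Agent.L7h37.GB.Box
import Pool.Agent.N411.CV.Comp

set_option autoImplicit false
set_option linter.unusedSectionVars false

/-!
Circuit covers of weightings which are nearly constant on a spanning subgraph all of whose nonempty
cuts have at least three edges, and smaller than a larger bound elsewhere.
-/

namespace Pool.Agent.L7h37.GB

open Finset
open Pool.Agent.Helper879.ECD (F2 IsFlow f2_add_self f2_cases cn)
open Pool.Agent.H126R2.CDC (MGraph isFl_iff)
open Pool.Agent.H126R2.NC (TC InIntCone cover_minus)
open Pool.Agent.TH399.CC (intCone_add intCone_sum block)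
open Pool.Agent.N411.CV (HasCol hasCol_eight colouring3)

variable {V E : Type} [Fintype V] [DecidableEq V] [Fintype E] [DecidableEq E]

/-- the eight colours -/
abbrev C8 := Bool ⊕ (Fin 3 ⊕ Fin 3)

/-- eight subgraphs of `H` without cuts of size less than two, every edge of `H` in seven -/
lemma eight_sub (a b : E → V) (H : Finset E)
    (hH : ∀ B : Finset V, cn a b univ B = 0 ∨ 3 ≤ cn a b H B) :
    ∃ K : C8 → Finset E, (∀ γ B, cn a b univ B = 0 ∨ 2 ≤ cn a b (K γ) B) ∧
      (∀ e ∈ H, (univ.filter (fun γ => e ∈ K γ)).card = 7) ∧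
      ∀ e, e ∉ H → (univ.filter (fun γ => e ∈ K γ)).card = 0 := by
  classical
  have hcn : ∀ (M : Finset {e // e ∈ H}) (B : Finset V),
      cn (fun e : {e // e ∈ H} => a e.1) (fun e => b e.1) M B =
        cn a b (M.image Subtype.val) B := by
    intro M B
    unfold cn
    rw [Finset.filter_image, Finset.card_image_of_injective _ Subtype.val_injective]
  have himg : (univ : Finset {e // e ∈ H}).image Subtype.val = H := by
    ext e
    simp
  obtain ⟨col, hcol⟩ := colouring3 hasCol_eight (fun e : {e // e ∈ H} => a e.1) (fun e => b e.1) (by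
    intro B
    rw [hcn, himg]
    rcases hH B with h | h
    · left
      have := cn_mono a b (Finset.subset_univ H) B
      omega
    · exact Or.inr h)
  let K : C8 → Finset E := fun γ => univ.filter (fun e => ∃ h : e ∈ H, col ⟨e, h⟩ ≠ γ)
  have hK : ∀ γ e (h : e ∈ H), e ∈ K γ ↔ col ⟨e, h⟩ ≠ γ := by
    intro γ e h
    simp only [K, Finset.mem_filter, Finset.mem_univ, true_and]
    exact ⟨fun ⟨_, h2⟩ => h2, fun h2 => ⟨h, h2⟩⟩
  have hKH : ∀ γ, K γ ⊆ H := by
    intro γ e he
    exact (Finset.mem_filter.1 he).2.1
  refine ⟨K, ?_, ?_, ?_⟩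
  · intro γ B
    rcases hH B with h | h
    · exact Or.inl h
    · right
      have h1 : cn a b (K γ) B ≠ 1 := by
        have h2 := hcol (univ.filter (fun e => col e = γ)) γ (by simp) B
        rw [hcn] at h2
        have h3 : ((univ : Finset {e // e ∈ H}) \ univ.filter (fun e => col e = γ)).image
            Subtype.val = K γ := by
          ext e
          simp only [Finset.mem_image, Finset.mem_sdiff, Finset.mem_univ, true_and,
            Finset.mem_filter, Subtype.exists, exists_and_right, exists_eq_right, K]
        rw [h3] at h2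
        exact h2
      by_contra hcon
      have h0 : cn a b (K γ) B = 0 := by omega
      have h0' := h0
      unfold cn at h0
      rw [Finset.card_eq_zero, Finset.filter_eq_empty_iff] at h0
      have h' := h
      unfold cn at h'
      obtain ⟨e0, he0⟩ := Finset.card_pos.1 (show 0 < _ from lt_of_lt_of_le (by norm_num) h')
      rw [Finset.mem_filter] at he0
      have h2 := hcol (univ.filter (fun e => col e = γ ∧ e ≠ ⟨e0, he0.1⟩)) γ (by
        intro e he
        exact (Finset.mem_filter.1 he).2.1) B
      rw [hcn] at h2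
      apply h2
      have h3 : (((univ : Finset {e // e ∈ H}) \
          univ.filter (fun e => col e = γ ∧ e ≠ ⟨e0, he0.1⟩)).image Subtype.val).filter
          (fun e => ¬ (a e ∈ B ↔ b e ∈ B)) = {e0} := by
        ext e
        rw [Finset.mem_filter, Finset.mem_image, Finset.mem_singleton]
        constructor
        · rintro ⟨⟨e', he', rfl⟩, hcr⟩
          rw [Finset.mem_sdiff, Finset.mem_filter] at he'
          by_contra hne
          by_cases h4 : col e' = γ
          · exact he'.2 ⟨Finset.mem_univ _, h4, fun h5 => hne (congrArg Subtype.val h5)⟩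
          · exact h0 ((hK γ e'.1 e'.2).2 h4) hcr
        · rintro rfl
          refine ⟨⟨⟨e, he0.1⟩, ?_, rfl⟩, he0.2⟩
          rw [Finset.mem_sdiff, Finset.mem_filter]
          exact ⟨Finset.mem_univ _, fun h5 => h5.2.2 rfl⟩
      unfold cn
      rw [h3, Finset.card_singleton]
  · intro e he
    have h1 : univ.filter (fun γ => e ∈ K γ) = univ.erase (col ⟨e, he⟩) := by
      ext γ
      rw [Finset.mem_filter, Finset.mem_erase, hK γ e he]
      constructor
      · rintro ⟨_, h⟩
        exact ⟨fun h2 => h h2.symm, Finset.mem_univ _⟩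
      · rintro ⟨h, _⟩
        exact ⟨Finset.mem_univ _, fun h2 => h h2.symm⟩
    rw [h1, Finset.card_erase_of_mem (Finset.mem_univ _), Finset.card_univ]
    decide
  · intro e he
    rw [Finset.card_eq_zero, Finset.filter_eq_empty_iff]
    intro γ _ h
    exact he (hKH γ h)

/-- weights within about `9 / 7` on `H` and up to about `16 / 7` times the least elsewhere -/
theorem cover_three (G : MGraph V E) (v : E × Bool → V)
    (hv : ∀ e, G.ends e = s(v (e, false), v (e, true))) (H : Finset E)
    (hH : ∀ B : Finset V, cn (fun e => v (e, false)) (fun e => v (e, true)) univ B = 0 ∨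
      3 ≤ cn (fun e => v (e, false)) (fun e => v (e, true)) H B) (w : E → ℕ) (k : ℕ)
    (h1 : ∀ e ∈ H, 14 * k ≤ w e ∧ w e + 7 ≤ 18 * k) (h2 : ∀ e, e ∉ H → w e + 63 ≤ 32 * k) :
    InIntCone G (fun e => 2 * (w e / 2)) := by
  classical
  obtain ⟨K, hK1, hK2, hK3⟩ := eight_sub _ _ H hH
  refine box_even G v hv K hK1 8 (by decide) k (fun e => w e / 2)
    (fun e => (univ.filter (fun γ => e ∈ K γ)).card) (fun e => rfl) ?_ ?_
  · intro e
    by_cases he : e ∈ H
    · have h3 := h1 e he
      show k * (univ.filter (fun γ => e ∈ K γ)).card ≤ w e / 2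
      rw [hK2 e he]
      omega
    · show k * (univ.filter (fun γ => e ∈ K γ)).card ≤ w e / 2
      rw [hK3 e he]
      omega
  · intro e
    by_cases he : e ∈ H
    · have h3 := h1 e he
      show w e / 2 ≤ k * (univ.filter (fun γ => e ∈ K γ)).card +
        2 * (k - 2) * (8 - (univ.filter (fun γ => e ∈ K γ)).card)
      rw [hK2 e he]
      omega
    · have h3 := h2 e he
      show w e / 2 ≤ k * (univ.filter (fun γ => e ∈ K γ)).card +
        2 * (k - 2) * (8 - (univ.filter (fun γ => e ∈ K γ)).card)
      rw [hK3 e he]
      omega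

end Pool.Agent.L7h37.GB
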