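import Pool.Agent.L7h37.GB.Box
import Pool.Agent.TH300.FC.Rank

set_option autoImplicit false
set_option linter.unusedSectionVars false

/-!
Circuit covers of weightings of graphs all of whose nonempty cuts have at least `2 t` edges.
-/

namespace Pool.Agent.L7h37.GB

open Finset
open Pool.Agent.Helper879.ECD (F2 IsFlow f2_add_self f2_cases cn sp inc fnl fnl_inc mem_sp)
open Pool.Agent.H126R2.CDC (MGraph isFl_iff packK)
open Pool.Agent.H126R2.NC (TC InIntCone cover_minus)
open Pool.Agent.TH399.CC (intCone_add intCone_sum block)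
open Pool.Agent.TH300.FC (rank_condk)

variable {V E : Type} [Fintype V] [DecidableEq V] [Fintype E] [DecidableEq E]

/-- `t` disjoint spanning sets -/
lemma packt (t : ℕ) (a b : E → V)
    (h4 : ∀ X : Finset V, cn a b univ X = 0 ∨ 2 * t ≤ cn a b univ X) :
    ∃ I : Fin t → Finset E, (∀ i j, i ≠ j → Disjoint (I i) (I j)) ∧
      ∀ i, sp F2 (inc a b) (I i) = sp F2 (inc a b) univ := by
  classical
  apply packK (K := Fin t) (F := F2) (x := inc a b)
  intro R
  have h1 := rank_condk (2 * t) a b h4 (sp F2 (inc a b) R)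
  rw [Fintype.card_fin]
  have h2 : 2 * t * Module.finrank F2 (sp F2 (inc a b) univ) =
    2 * (t * Module.finrank F2 (sp F2 (inc a b) univ)) := by ring
  have h3 : 2 * t * Module.finrank F2 (sp F2 (inc a b) R) =
    2 * (t * Module.finrank F2 (sp F2 (inc a b) R)) := by ring
  rw [h2, h3] at h1
  have h5 : 2 * (t * Module.finrank F2 (sp F2 (inc a b) univ)) ≤
      2 * (t * Module.finrank F2 (sp F2 (inc a b) R) +
        (univ.filter (fun e => ¬ inc a b e ∈ sp F2 (inc a b) R)).card) := by
    rw [Nat.mul_add 2]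
    convert h1 using 3
  have h6 := Nat.le_of_mul_le_mul_left h5 (by norm_num)
  convert h6 using 3

/-- a spanning set meets every nonempty cut -/
lemma span_cut (a b : E → V) (I : Finset E) (hI : sp F2 (inc a b) I = sp F2 (inc a b) univ)
    (B : Finset V) (hB : cn a b univ B ≠ 0) : 1 ≤ cn a b I B := by
  classical
  by_contra hcon
  have h0 : cn a b I B = 0 := by omega
  unfold cn at h0 hB
  rw [Finset.card_eq_zero, Finset.filter_eq_empty_iff] at h0
  obtain ⟨e, he⟩ := Finset.card_pos.1 (Nat.pos_of_ne_zero hB)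
  rw [Finset.mem_filter] at he
  let c : V → F2 := fun w => if w ∈ B then 1 else 0
  have h1 : sp F2 (inc a b) I ≤ LinearMap.ker (fnl c) := by
    unfold sp
    rw [Submodule.span_le]
    rintro x ⟨f, hf, rfl⟩
    rw [SetLike.mem_coe, LinearMap.mem_ker, fnl_inc]
    have h2 := not_not.1 (h0 (Finset.mem_coe.1 hf))
    show (if a f ∈ B then (1 : F2) else 0) + (if b f ∈ B then 1 else 0) = 0
    by_cases h3 : a f ∈ B
    · rw [if_pos h3, if_pos (h2.1 h3), f2_add_self]
    · rw [if_neg h3, if_neg (fun h => h3 (h2.2 h)), f2_add_self]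
  have h2 : inc a b e ∈ sp F2 (inc a b) I := by
    rw [hI]; exact mem_sp (Finset.mem_univ e)
  have h3 := h1 h2
  rw [LinearMap.mem_ker, fnl_inc] at h3
  have h4 : (if a e ∈ B then (1 : F2) else 0) + (if b e ∈ B then 1 else 0) = 0 := h3
  by_cases h5 : a e ∈ B
  · by_cases h6 : b e ∈ B
    · exact he.2 ⟨fun _ => h6, fun _ => h5⟩
    · rw [if_pos h5, if_neg h6] at h4
      exact absurd h4 (by decide)
  · by_cases h6 : b e ∈ B
    · rw [if_neg h5, if_pos h6] at h4
      exact absurd h4 (by decide)
    · exact he.2 ⟨fun h => absurd h h5, fun h => absurd h h6⟩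

/-- weights within a factor of about `t - 1` if all nonempty cuts have at least `2 t` edges -/
theorem cover_cuts (G : MGraph V E) (v : E × Bool → V)
    (hv : ∀ e, G.ends e = s(v (e, false), v (e, true))) (t : ℕ) (ht : 2 ≤ t)
    (h4 : ∀ X : Finset V, cn (fun e => v (e, false)) (fun e => v (e, true)) univ X = 0 ∨
      2 * t ≤ cn (fun e => v (e, false)) (fun e => v (e, true)) univ X) (p : E → ℕ)
    (hr : ∀ e f, p e + 12 * t ≤ (t - 1) * p f) :
    InIntCone G (fun e => 2 * (p e / 2)) := by
  classical
  obtain ⟨m, rfl⟩ : ∃ m, t = m + 2 := ⟨t - 2, by omega⟩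
  obtain ⟨I, hd, hI⟩ := packt (m + 2) _ _ h4
  have hne : ∀ i : Fin (m + 2), i ≠ i + 1 := by
    intro i h
    have h1 : (1 : Fin (m + 2)) = 0 := by
      have h2 : i + 1 = i + 0 := by rw [add_zero]; exact h.symm
      exact add_left_cancel h2
    exact absurd h1 (by simp)
  refine box_uniform G v hv (fun i : Fin (m + 2) => I i ∪ I (i + 1)) ?_ (m + 2)
    (by simp) 2 (by norm_num) (by omega) ?_ p ?_
  · intro i B
    by_cases hB : cn (fun e => v (e, false)) (fun e => v (e, true)) univ B = 0
    · exact Or.inl hB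
    · right
      have h1 := span_cut _ _ (I i) (hI i) B hB
      have h2 := span_cut _ _ (I (i + 1)) (hI (i + 1)) B hB
      unfold cn at h1 h2 ⊢
      rw [Finset.filter_union, Finset.card_union_of_disjoint]
      · omega
      · exact Finset.disjoint_filter_filter (hd _ _ (hne i))
  · intro e
    by_cases h : ∃ l, e ∈ I l
    · obtain ⟨l, hl⟩ := h
      have huniq : ∀ j, e ∈ I j → j = l := by
        intro j hj
        by_contra hjl
        exact Finset.disjoint_left.1 (hd j l hjl) hj hl
      have h1 : (univ.filter (fun i : Fin (m + 2) => e ∈ I i ∪ I (i + 1))) ⊆ {l, l - 1} := by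
        intro i hi
        rw [Finset.mem_filter, Finset.mem_union] at hi
        rw [Finset.mem_insert, Finset.mem_singleton]
        rcases hi.2 with h2 | h2
        · exact Or.inl (huniq _ h2)
        · right
          rw [← huniq _ h2]
          exact (add_sub_cancel_right i 1).symm
      exact le_trans (Finset.card_le_card h1) Finset.card_le_two
    · have h1 : (univ.filter (fun i : Fin (m + 2) => e ∈ I i ∪ I (i + 1))) = ∅ := by
        rw [Finset.filter_eq_empty_iff]
        intro i _ hi
        rw [Finset.mem_union] at hi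
        rcases hi with h2 | h2
        · exact h ⟨_, h2⟩
        · exact h ⟨_, h2⟩
      rw [h1]; simp
  · intro e f
    have h1 := hr e f
    have h2 : 2 * (m + 2) - 2 = 2 * (m + 2 - 1) := by omega
    rw [h2]
    have h3 : 2 * (m + 2 - 1) * p f = 2 * ((m + 2 - 1) * p f) := by ring
    rw [h3]
    have h4 : 12 * 2 * (m + 2) = 2 * (12 * (m + 2)) := by ring
    rw [h4]
    omega

end Pool.Agent.L7h37.GB
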